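import Pool.Agent.Helper64_BOX.All
import Pool.Agent.Helper22_BEC.All
import Pool.Agent.BXS.Stmts
import Pool.Agent.Helper64_BXS.CUT
import Pool.Agent.Helper6_BXS.BCU
import Pool.Agent.Helper2_BXS.BLI
import Pool.Agent.Helper42_BXS.BFR
import Pool.Agent.Helper75_BXS.LAP
import Pool.Agent.Helper63_BXS.GRD
import Pool.Agent.Helper72_BXS.MEA
import Pool.Agent.Helper39_BXS.ZBX
import Pool.Agent.Helper44_BXS.STB

/-!
Squad BXS: assembly. Almost every box, `α = 2`.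
-/

set_option autoImplicit false

namespace Pool.Agent.BXS.All

open Pool.Agent.BXS Pool.Agent.BE01F MeasureTheory

theorem cut : CutStmt := H64.cut Pool.Agent.BEC.H27.mol

theorem zbx : ZbxStmt := H39.zbx cut H6.bcu H2.bli H42.bfr

theorem stb : StbStmt :=
  H44.stb zbx H42.bfr H75.lap H63.grd H72.mea Pool.Agent.BEC.All.cse
    (Pool.Agent.BEC.H49.ldf Pool.Agent.BEC.All.cse)
    (Pool.Agent.BEC.H29.wek Pool.Agent.BEC.All.cse Pool.Agent.BEC.H59.gre)

/-- Almost every box. -/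
theorem box (d : ℕ) (hd : 2 ≤ d) : ∀ᵐ l : Fin d → ℝ, (∀ i, 0 < l i) →
    ∀ a : ℝ, 0 < a → SharpRate {x : E d | ∀ i, 0 < x i ∧ x i < l i} a ((2 * 1 : ℕ) : ℝ) := by
  filter_upwards [Pool.Agent.BOX.All.all.2.2 d hd] with l hl hp a ha
  exact stb d l a hp ha (hl hp a ha)

end Pool.Agent.BXS.All
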